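import Pool.Agent.Q194.Circ.Pos

/-!
# The two polynomials attached to a measure with finite support on the circle
-/

set_option autoImplicit false

noncomputable section

namespace Pool.Agent.Q194.Circ

open Complex Polynomial Finset
open scoped ComplexConjugate

/-- `1 - conj a X`. -/
def lin (a : ℂ) : ℂ[X] := 1 - C (conj a) * X

@[simp] theorem eval_lin (a z : ℂ) : (lin a).eval z = 1 - z * conj a := by
  unfold lin; simp; ring

theorem natDegree_lin_le (a : ℂ) : (lin a).natDegree ≤ 1 := by
  unfold lin
  refine (natDegree_sub_le _ _).trans ?_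
  rw [natDegree_one]
  exact max_le zero_le_one ((natDegree_C_mul_le _ _).trans natDegree_X_le)

@[simp] theorem coeff_lin_one (a : ℂ) : (lin a).coeff 1 = -conj a := by
  unfold lin
  rw [coeff_sub, coeff_one, coeff_C_mul_X]
  simp

theorem derivative_lin (a : ℂ) : derivative (lin a) = -C (conj a) := by
  unfold lin; simp

theorem list_factor (l : List ℂ) (hl : ∀ ρ ∈ l, ρ ≠ 0) :
    (l.map fun ρ => X - C ρ).prod =
      C ((l.map fun ρ => -ρ).prod) * (l.map fun ρ => lin (conj ρ⁻¹)).prod := by
  induction l with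
  | nil => simp
  | cons ρ l ih =>
    have h0 : ρ ≠ 0 := hl ρ (by simp)
    have ih' := ih fun x hx => hl x (by simp [hx])
    rw [List.map_cons, List.prod_cons, ih', List.map_cons, List.prod_cons, List.map_cons,
      List.prod_cons, C_mul]
    have h1 : X - C ρ = C (-ρ) * lin (conj ρ⁻¹) := by
      unfold lin
      rw [conj_conj, mul_sub, mul_one, ← mul_assoc, ← C_mul, neg_mul, mul_inv_cancel₀ h0, C_neg,
        C_neg, C_1]
      ring
    rw [h1]
    ring

theorem eval_list_lin (l : List ℂ) : ((l.map fun ρ => lin (conj ρ⁻¹)).prod).eval 0 = 1 := by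
  induction l with
  | nil => simp
  | cons ρ l ih => rw [List.map_cons, List.prod_cons, eval_mul, ih, eval_lin]; simp

/-- Factorisation of a polynomial with value one at the origin. -/
theorem exists_factor (R : ℂ[X]) (h : R.eval 0 = 1) :
    ∃ a : Fin R.natDegree → ℂ, (∀ i, a i ≠ 0) ∧ R = ∏ i, lin (a i) := by
  have hR : R ≠ 0 := by rintro rfl; simp at h
  have hs : R.Splits := IsAlgClosed.splits R
  have hcard : R.roots.card = R.natDegree := hs.natDegree_eq_card_roots.symm
  have hl : R.natDegree = R.roots.toList.length := by rw [Multiset.length_toList, hcard]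
  have hprod : R = C R.leadingCoeff * (R.roots.toList.map fun a => X - C a).prod := by
    conv_lhs => rw [hs.eq_prod_roots]
    rw [← Multiset.prod_coe, ← Multiset.map_coe, Multiset.coe_toList]
  have hroot : ∀ ρ ∈ R.roots.toList, ρ ≠ 0 := by
    intro ρ hρ h0
    have := (mem_roots hR).1 (Multiset.mem_toList.1 hρ)
    rw [IsRoot, h0, h] at this
    exact one_ne_zero this
  rw [list_factor _ hroot, ← mul_assoc, ← C_mul] at hprod
  have h1 : R.leadingCoeff * (R.roots.toList.map fun ρ => -ρ).prod = 1 := by
    have h2 := congrArg (eval 0) hprod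
    rw [h, eval_mul, eval_C, eval_list_lin, mul_one] at h2
    exact h2.symm
  rw [h1, C_1, one_mul, ← Fin.prod_univ_fun_getElem] at hprod
  refine ⟨fun i => conj (R.roots.toList[(Fin.cast hl i).1])⁻¹, fun i => ?_, ?_⟩
  · have := hroot _ (List.getElem_mem (Fin.cast hl i).2)
    simpa using this
  · conv_lhs => rw [hprod]
    exact (Fintype.prod_equiv (finCongr hl) _ _ fun i => rfl).symm


/-- Logarithmic derivative of a product of linear factors. -/
theorem eval_derivative_prod {κ : Type*} (t : Finset κ) (a : κ → ℂ) (z : ℂ)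
    (h : ∀ i ∈ t, 1 - z * conj (a i) ≠ 0) :
    (derivative (∏ i ∈ t, lin (a i))).eval z =
      -((∏ i ∈ t, lin (a i)).eval z * ∑ i ∈ t, ker (a i) z) := by
  classical
  induction t using Finset.induction_on with
  | empty => simp
  | insert j t hj ih =>
    rw [Finset.prod_insert hj, derivative_mul, eval_add, eval_mul, eval_mul,
      ih fun i hi => h i (Finset.mem_insert_of_mem hi), derivative_lin, Finset.sum_insert hj,
      eval_mul, eval_lin, eval_neg, eval_C]
    have h1 := h j (Finset.mem_insert_self _ _)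
    have hk : (1 - z * conj (a j)) * ker (a j) z = conj (a j) := by
      unfold ker
      exact mul_div_cancel₀ _ h1
    linear_combination (eval z (∏ i ∈ t, lin (a i))) * hk

theorem coeff_prod_lin {κ : Type*} (t : Finset κ) (a : κ → ℂ) :
    (∏ i ∈ t, lin (a i)).coeff t.card = ∏ i ∈ t, -conj (a i) := by
  have := coeff_prod_of_natDegree_le t (fun i => lin (a i)) 1 fun i _ => natDegree_lin_le (a i)
  rw [mul_one] at this
  rw [this]
  exact Finset.prod_congr rfl fun i _ => coeff_lin_one (a i)

theorem natDegree_prod_lin_le {κ : Type*} (t : Finset κ) (a : κ → ℂ) :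
    (∏ i ∈ t, lin (a i)).natDegree ≤ t.card := by
  refine (natDegree_prod_le _ _).trans ?_
  calc ∑ i ∈ t, (lin (a i)).natDegree ≤ ∑ _i ∈ t, 1 := Finset.sum_le_sum fun i _ =>
        natDegree_lin_le (a i)
    _ = t.card := by simp

section

variable {ι : Type*} [Fintype ι] [DecidableEq ι] (s : ι → ℂ) (q : ι → ℝ)

/-- The polynomial with the given zeros. -/
def P : ℂ[X] := ∏ i, lin (s i)

/-- The numerator of the Herglotz function. -/
def N : ℂ[X] := ∑ i, C (q i : ℂ) * (1 + C (conj (s i)) * X) * ∏ l ∈ univ.erase i, lin (s l)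

/-- The Herglotz function. -/
def QQ (z : ℂ) : ℂ := ∑ i, (q i : ℂ) * ((1 + z * conj (s i)) / (1 - z * conj (s i)))

omit [DecidableEq ι] in
theorem eval_P (z : ℂ) : (P s).eval z = ∏ i, (1 - z * conj (s i)) := by
  unfold P
  rw [eval_prod]
  exact Finset.prod_congr rfl fun i _ => eval_lin _ _

theorem eval_N (z : ℂ) : (N s q).eval z =
    ∑ i, (q i : ℂ) * (1 + z * conj (s i)) * ∏ l ∈ univ.erase i, (1 - z * conj (s l)) := by
  unfold N
  rw [eval_finsetSum]
  refine Finset.sum_congr rfl fun i _ => ?_
  rw [eval_mul, eval_mul, eval_C, eval_add, eval_one, eval_mul, eval_C, eval_X, eval_prod]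
  congr 1
  · ring
  · exact Finset.prod_congr rfl fun i _ => eval_lin _ _

theorem eval_N_eq {z : ℂ} (hz : ∀ i, 1 - z * conj (s i) ≠ 0) :
    (N s q).eval z = (P s).eval z * QQ s q z := by
  rw [eval_N, eval_P]
  unfold QQ
  rw [Finset.mul_sum]
  refine Finset.sum_congr rfl fun i _ => ?_
  rw [← Finset.mul_prod_erase univ _ (mem_univ i)]
  have := hz i
  field_simp

omit [DecidableEq ι] in
theorem P_zero : (P s).eval 0 = 1 := by rw [eval_P]; simp

theorem N_zero (hq : ∑ i, q i = 1) : (N s q).eval 0 = 1 := by
  rw [eval_N]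
  simp only [zero_mul, add_zero, sub_zero, mul_one, Finset.prod_const_one]
  rw [← ofReal_sum, hq, ofReal_one]

omit [DecidableEq ι] in
theorem P_coeff : (P s).coeff (Fintype.card ι) = ∏ i, -conj (s i) := by
  unfold P
  rw [← Finset.card_univ]
  exact coeff_prod_lin _ _

theorem N_coeff (hq : ∑ i, q i = 1) : (N s q).coeff (Fintype.card ι) = -∏ i, -conj (s i) := by
  have key : ∀ i : ι, (C (q i : ℂ) * (1 + C (conj (s i)) * X) *
      ∏ l ∈ univ.erase i, lin (s l)).coeff (Fintype.card ι) =
      -((q i : ℂ) * ∏ i, -conj (s i)) := by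
    intro i
    have hc : Fintype.card ι = 1 + (univ.erase i).card := by
      rw [Finset.card_erase_of_mem (mem_univ i), Finset.card_univ]
      have : 0 < Fintype.card ι := Fintype.card_pos_iff.2 ⟨i⟩
      omega
    rw [mul_assoc, coeff_C_mul, hc]
    have h1 : (1 + C (conj (s i)) * X : ℂ[X]).natDegree ≤ 1 := by
      refine (natDegree_add_le _ _).trans ?_
      rw [natDegree_one]
      exact max_le zero_le_one ((natDegree_C_mul_le _ _).trans natDegree_X_le)
    rw [coeff_mul_add_eq_of_natDegree_le h1 (natDegree_prod_lin_le _ _), coeff_prod_lin, coeff_add,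
      coeff_one, coeff_C_mul_X, ← Finset.mul_prod_erase univ (fun i => -conj (s i)) (mem_univ i)]
    simp
  unfold N
  rw [finsetSum_coeff, Finset.sum_congr rfl fun i _ => key i, Finset.sum_neg_distrib,
    ← Finset.sum_mul, ← ofReal_sum, hq, ofReal_one, one_mul]

theorem N_natDegree_le : (N s q).natDegree ≤ Fintype.card ι := by
  unfold N
  refine natDegree_sum_le_of_forall_le _ _ fun i _ => ?_
  refine natDegree_mul_le_of_le (m := 1) (n := (univ.erase i).card) ?_
    (natDegree_prod_lin_le _ _) |>.trans ?_
  · refine (natDegree_C_mul_le _ _).trans ?_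
    refine (natDegree_add_le _ _).trans ?_
    rw [natDegree_one]
    exact max_le zero_le_one ((natDegree_C_mul_le _ _).trans natDegree_X_le)
  · rw [Finset.card_erase_of_mem (mem_univ i), Finset.card_univ]
    have : 0 < Fintype.card ι := Fintype.card_pos_iff.2 ⟨i⟩
    omega

omit [DecidableEq ι] in
theorem P_natDegree_le : (P s).natDegree ≤ Fintype.card ι := by
  unfold P
  rw [← Finset.card_univ]
  exact natDegree_prod_lin_le _ _

end

end Pool.Agent.Q194.Circ
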