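import Pool.Agent.Q194.Circ.Roots

/-!
# The weighted product of distances
-/

set_option autoImplicit false

noncomputable section

namespace Pool.Agent.Q194.Circ

open Complex Polynomial Finset
open scoped ComplexConjugate

variable {ι : Type*} [Fintype ι] [DecidableEq ι] {s : ι → ℂ} {q : ι → ℝ}

/-- The half sum. -/
def A (s : ι → ℂ) (q : ι → ℝ) : ℂ[X] := C (1 / 2) * (P s + N s q)

theorem eval_A (z : ℂ) : (A s q).eval z = ((P s).eval z + (N s q).eval z) / 2 := by
  unfold A
  rw [eval_mul, eval_C, eval_add]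
  ring

/-- Data of the half sum. -/
theorem exists_A (hs : ∀ i, ‖s i‖ = 1) (inj : Function.Injective s) (hq0 : ∀ i, 0 < q i)
    (hq : ∑ i, q i = 1) [Nonempty ι] :
    ∃ (d : ℕ) (a : Fin d → ℂ), (∀ j, ‖a j‖ < 1) ∧ A s q = ∏ j, lin (a j) ∧
      (∀ j, (N s q).eval (a j) = (A s q).eval (a j)) := by
  have h0 : (A s q).eval 0 = 1 := by rw [eval_A, P_zero, N_zero s q hq]; norm_num
  obtain ⟨a, ha0, ha⟩ := exists_factor (A s q) h0
  have hroot : ∀ j, (P s).eval (conj (a j))⁻¹ + (N s q).eval (conj (a j))⁻¹ = 0 := by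
    intro j
    have h1 : (A s q).eval (conj (a j))⁻¹ = 0 := by
      rw [ha, eval_prod]
      refine Finset.prod_eq_zero (mem_univ j) ?_
      rw [eval_lin, inv_mul_cancel₀ ((_root_.map_ne_zero _).2 (ha0 j)), sub_self]
    rw [eval_A] at h1
    linear_combination 2 * h1
  refine ⟨_, a, fun j => ?_, ha, fun j => ?_⟩
  · have := (A_root hs inj hq0 (hroot j)).1
    rw [norm_inv, RCLike.norm_conj] at this
    have h1 : 0 < ‖a j‖ := norm_pos_iff.2 (ha0 j)
    exact (one_lt_inv₀ h1).1 this
  · obtain ⟨h1, h2, h3⟩ := A_root hs inj hq0 (hroot j)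
    have hne : (conj (a j))⁻¹ ≠ 0 := inv_ne_zero ((_root_.map_ne_zero _).2 (ha0 j))
    have h4 := QQ_refl (q := q) hs hne h2
    rw [h3, map_inv₀, conj_conj, inv_inv, map_neg, map_one, neg_neg] at h4
    have h5 : ∀ i, 1 - a j * conj (s i) ≠ 0 := by
      intro i h
      have h6 := eq_of_one_sub (hs i) h
      have h7 := (A_root hs inj hq0 (hroot j)).1
      rw [norm_inv, RCLike.norm_conj, h6, hs i, inv_one] at h7
      exact lt_irrefl _ h7
    rw [eval_A, eval_N_eq s q h5, h4]
    ring

theorem log_norm_prod {κ : Type*} [Fintype κ] (b : κ → ℂ) (z : ℂ)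
    (h : (∏ j, lin (b j)).eval z ≠ 0) :
    Real.log ‖(∏ j, lin (b j)).eval z‖ = ∑ j, Real.log ‖1 - conj (b j) * z‖ := by
  rw [eval_prod] at h ⊢
  rw [norm_prod, Real.log_prod]
  · refine Finset.sum_congr rfl fun j _ => ?_
    rw [eval_lin, mul_comm]
  · intro j _
    exact norm_ne_zero_iff.2 (Finset.prod_ne_zero_iff.1 h j (mem_univ j))

theorem norm_swap (x y : ℂ) : ‖1 - conj x * y‖ = ‖1 - conj y * x‖ := by
  rw [← RCLike.norm_conj (1 - conj x * y), map_sub, map_mul, map_one, conj_conj, mul_comm]

theorem core (hs : ∀ i, ‖s i‖ = 1) (inj : Function.Injective s) (hq0 : ∀ i, 0 < q i)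
    (hq : ∑ i, q i = 1) [Nonempty ι] :
    ∃ z : ℂ, ‖z‖ = 1 ∧ (∀ i, z ≠ s i) ∧
      Real.log 2 / Fintype.card ι ≤ ∑ i, q i * Real.log ‖z - s i‖ := by
  obtain ⟨w, hw1, hwinj, hwN, hws, hlam, hpf⟩ := exists_dual hs inj hq0 hq
  obtain ⟨d, a, ha1, haA, haN⟩ := exists_A hs inj hq0 hq
  set m : ℝ := (Fintype.card ι : ℝ) with hm
  have hm0 : (0 : ℝ) < m := by rw [hm]; exact_mod_cast Fintype.card_pos
  set c : ℝ := 1 / m with hc
  set lm : Fin (Fintype.card ι) → ℝ := fun j => lam s q (w j) with hlm
  have hlmpos : ∀ j, 0 < lm j := fun j => lam_pos hq0 (hws j)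
  -- nonvanishing
  have hPw : ∀ j, (P s).eval (w j) ≠ 0 := fun j => P_ne (hws j)
  have hNw : ∀ j, (N s q).eval (w j) = 0 := fun j => by
    rw [hwN, eval_prod]
    refine Finset.prod_eq_zero (mem_univ j) ?_
    rw [eval_lin, mul_conj_self (hw1 j), sub_self]
  have hNs : ∀ i, (N s q).eval (s i) ≠ 0 := N_eval_s hs inj hq0
  have hsA : ∀ i, (N s q).eval (s i) = 2 * (A s q).eval (s i) := fun i => by
    rw [eval_A, P_eval_s hs]; ring
  have hwA : ∀ j, (P s).eval (w j) = 2 * (A s q).eval (w j) := fun j => by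
    rw [eval_A, hNw]; ring
  have hNlt : ∀ z : ℂ, ‖z‖ < 1 → (N s q).eval z ≠ 0 := fun z hz h =>
    hz.ne (N_root hs inj hq0 h).1
  have hAlt : ∀ z : ℂ, ‖z‖ ≤ 1 → (A s q).eval z ≠ 0 := fun z hz h => by
    rw [eval_A] at h
    have := (A_root hs inj hq0 (s := s) (q := q) (z := z) (by linear_combination 2 * h)).1
    linarith
  -- the three relations between the logarithms
  have hα : ∀ i, ∑ j, Real.log ‖1 - conj (s i) * w j‖ =
      Real.log 2 + ∑ k, Real.log ‖1 - conj (s i) * a k‖ := by
    intro i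
    have h1 := log_norm_prod w (s i) (by rw [← hwN]; exact hNs i)
    have h2 := log_norm_prod a (s i) (by rw [← haA]; exact hAlt _ (hs i).le)
    rw [← hwN, hsA i, norm_mul, Real.log_mul (by norm_num) (norm_ne_zero_iff.2
      (hAlt _ (hs i).le)), haA, h2] at h1
    simp only [norm_swap (s i)]
    rw [← h1]
    norm_num
  have hβ : ∀ j, ∑ i, Real.log ‖1 - conj (s i) * w j‖ =
      Real.log 2 + ∑ k, Real.log ‖1 - conj (a k) * w j‖ := by
    intro j
    have h1 := log_norm_prod s (w j) (by exact hPw j)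
    have h2 := log_norm_prod a (w j) (by rw [← haA]; exact hAlt _ (hw1 j).le)
    have h3 : eval (w j) (∏ i, lin (s i)) = 2 * (A s q).eval (w j) := hwA j
    rw [h3, norm_mul, Real.log_mul (by norm_num) (norm_ne_zero_iff.2
      (hAlt _ (hw1 j).le)), haA, h2] at h1
    rw [← h1]
    norm_num
  have hγ : ∀ k, ∑ j, Real.log ‖1 - conj (a k) * w j‖ =
      ∑ l, Real.log ‖1 - conj (a k) * a l‖ := by
    intro k
    have h1 := log_norm_prod w (a k) (by rw [← hwN]; exact hNlt _ (ha1 k))
    have h2 := log_norm_prod a (a k) (by rw [← haA]; exact hAlt _ (ha1 k).le)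
    rw [← hwN, haN k, haA, h2] at h1
    simp only [norm_swap (a k)]
    exact h1.symm
  -- the pointwise inequality
  have key := pos_lemma (x := Sum.elim s a) (y := Sum.elim w a)
    (Sum.elim (fun i => q i - c) (fun _ => c)) (Sum.elim (fun j => lm j - c) (fun _ => c))
    (by
      rintro (i | k)
      · exact (hs i).le
      · exact (ha1 k).le)
    (by
      rintro (j | k)
      · exact (hw1 j).le
      · exact (ha1 k).le)
    (by
      have hlt : ∀ x y : ℂ, ‖x‖ ≤ 1 → ‖y‖ < 1 → conj x * y ≠ 1 := by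
        intro x y hx hy h
        have := one_sub_ne hx hy
        apply this
        rw [mul_comm, h, sub_self]
      have hlt' : ∀ x y : ℂ, ‖x‖ < 1 → ‖y‖ ≤ 1 → conj x * y ≠ 1 := by
        intro x y hx hy h
        apply hlt y x hy hx
        have := congrArg conj h
        rw [map_mul, conj_conj, map_one] at this
        rw [mul_comm]
        exact this
      rintro (i | k) (j | l)
      · intro h
        apply hws j i
        simp only [Sum.elim_inl] at h
        rw [mul_comm, h, sub_self]
      · exact hlt _ _ (hs i).le (ha1 l)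
      · exact hlt' _ _ (ha1 k) (hw1 j).le
      · exact hlt _ _ (ha1 k).le (ha1 l))
    (by
      intro z hz0 hz1
      have hzs : ∀ i, 1 - z * conj (s i) ≠ 0 := fun i => one_sub_ne (hs i).le hz1
      have hza : ∀ k, 1 - z * conj (a k) ≠ 0 := fun k => one_sub_ne (ha1 k).le hz1
      have hzw : ∀ j, 1 - z * conj (w j) ≠ 0 := fun j => one_sub_ne (hw1 j).le hz1
      have hP := P_ne hzs
      have hN := hNlt z hz1
      set LS := ∑ i, ker (s i) z with hLS
      set LW := ∑ j, ker (w j) z with hLW
      set LA := ∑ k, ker (a k) z with hLA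
      set DS := ∑ i, (q i : ℂ) * ker (s i) z with hDS
      set DW := ∑ j, (lm j : ℂ) * ker (w j) z with hDW
      have hf : kerSum (Sum.elim s a) (Sum.elim (fun i => q i - c) (fun _ => c)) z =
          DS - c * LS + c * LA := by
        unfold kerSum
        rw [Fintype.sum_sum_type]
        simp only [Sum.elim_inl, Sum.elim_inr, ofReal_sub, sub_mul, Finset.sum_sub_distrib,
          ← Finset.mul_sum]
        rfl
      have hg : kerSum (Sum.elim w a) (Sum.elim (fun j => lm j - c) (fun _ => c)) z =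
          DW - c * LW + c * LA := by
        unfold kerSum
        rw [Fintype.sum_sum_type]
        simp only [Sum.elim_inl, Sum.elim_inr, ofReal_sub, sub_mul, Finset.sum_sub_distrib,
          ← Finset.mul_sum]
        rfl
      have e1 : (N s q).eval z - (P s).eval z = (P s).eval z * (2 * z * DS) := by
        rw [eval_N_eq s q hzs]
        have : QQ s q z - 1 = 2 * z * DS := by
          have h1 : QQ s q z - 1 = QQ s q z - ∑ i, (q i : ℂ) := by
            rw [← ofReal_sum, hq, ofReal_one]
          rw [h1]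
          unfold QQ
          rw [← Finset.sum_sub_distrib, hDS, Finset.mul_sum]
          refine Finset.sum_congr rfl fun i _ => ?_
          have h2 := hzs i
          unfold ker
          field_simp
          ring
        rw [← this]
        ring
      have e2 : (P s).eval z - (N s q).eval z = (N s q).eval z * (2 * z * DW) := by
        rw [← eval_sub, hpf, eval_finsetSum, hDW, Finset.mul_sum, Finset.mul_sum]
        refine Finset.sum_congr rfl fun j _ => ?_
        have h3 : (N s q).eval z = (1 - z * conj (w j)) *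
            (∏ k ∈ univ.erase j, lin (w k)).eval z := by
          rw [hwN, ← Finset.mul_prod_erase univ _ (mem_univ j), eval_mul, eval_lin]
        have h4 := hzw j
        have hk : (1 - z * conj (w j)) * ker (w j) z = conj (w j) := by
          unfold ker
          exact mul_div_cancel₀ _ h4
        rw [h3, eval_mul, eval_mul, eval_C, eval_X]
        linear_combination (-(2 * z * (lm j : ℂ) * (∏ k ∈ univ.erase j, lin (w k)).eval z)) * hk
      have d1 := eval_derivative_prod univ s z (fun i _ => hzs i)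
      have d2 := eval_derivative_prod univ w z (fun i _ => hzw i)
      have d3 := eval_derivative_prod univ a z (fun i _ => hza i)
      rw [← hwN] at d2
      rw [← haA] at d3
      have d4 : (derivative (A s q)).eval z =
          ((derivative (P s)).eval z + (derivative (N s q)).eval z) / 2 := by
        unfold A
        rw [derivative_C_mul, derivative_add, eval_mul, eval_C, eval_add]
        ring
      have d1' : (derivative (P s)).eval z = -((P s).eval z * LS) := d1
      rw [d4, d1', d2, eval_A] at d3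
      have hcomb : (P s).eval z * (DS - c * LS + c * LA) +
          (N s q).eval z * (DW - c * LW + c * LA) = 0 := by
        have h2z : (2 : ℂ) * z ≠ 0 := mul_ne_zero two_ne_zero hz0
        apply mul_left_cancel₀ h2z
        rw [mul_zero]
        linear_combination -e1 - e2 + (4 * z * c) * d3
      have hfg : DS - c * LS + c * LA = -(QQ s q z * (DW - c * LW + c * LA)) := by
        apply mul_left_cancel₀ hP
        rw [eval_N_eq s q hzs] at hcomb
        linear_combination hcomb
      rw [hf, hg, hfg, neg_mul, mul_assoc, mul_conj, neg_re, re_mul_ofReal, neg_nonpos]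
      refine mul_nonneg ?_ (normSq_nonneg _)
      rw [QQ_re hs]
      refine mul_nonneg ?_ (sum_pos_aux hq0 hzs).le
      have := norm_nonneg z
      nlinarith)
  rw [Fintype.sum_sum_type] at key
  simp only [Fintype.sum_sum_type, Sum.elim_inl, Sum.elim_inr] at key
  -- evaluation
  set κsw : ι → Fin (Fintype.card ι) → ℝ := fun i j => Real.log ‖1 - conj (s i) * w j‖ with hκsw
  set κaw : Fin d → Fin (Fintype.card ι) → ℝ := fun k j => Real.log ‖1 - conj (a k) * w j‖ with hκaw
  have r1 : ∀ i, ∑ j, (q i - c) * (lm j - c) * κsw i j +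
      ∑ k, (q i - c) * c * Real.log ‖1 - conj (s i) * a k‖ =
      (q i - c) * (∑ j, lm j * κsw i j - c * Real.log 2) := by
    intro i
    have h1 : ∑ j, (q i - c) * (lm j - c) * κsw i j =
        (q i - c) * (∑ j, lm j * κsw i j - c * ∑ j, κsw i j) := by
      rw [Finset.mul_sum, ← Finset.sum_sub_distrib, Finset.mul_sum]
      exact Finset.sum_congr rfl fun j _ => by ring
    have h2 := hα i
    rw [h1, ← Finset.mul_sum]
    have h3 : ∑ j, κsw i j = Real.log 2 + ∑ k, Real.log ‖1 - conj (s i) * a k‖ := h2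
    rw [h3]
    ring
  have r2 : ∀ k, ∑ j, c * (lm j - c) * κaw k j +
      ∑ l, c * c * Real.log ‖1 - conj (a k) * a l‖ = c * ∑ j, lm j * κaw k j := by
    intro k
    have h1 : ∑ j, c * (lm j - c) * κaw k j =
        c * (∑ j, lm j * κaw k j - c * ∑ j, κaw k j) := by
      rw [Finset.mul_sum, ← Finset.sum_sub_distrib, Finset.mul_sum]
      exact Finset.sum_congr rfl fun j _ => by ring
    have h3 : ∑ j, κaw k j = ∑ l, Real.log ‖1 - conj (a k) * a l‖ := hγ k
    rw [h1, ← Finset.mul_sum, h3]
    ring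
  have r3 : ∑ i, ∑ j, lm j * κsw i j - ∑ k, ∑ j, lm j * κaw k j = Real.log 2 := by
    rw [Finset.sum_comm, Finset.sum_comm (f := fun k j => lm j * κaw k j),
      ← Finset.sum_sub_distrib]
    have h1 : ∀ j, ∑ i, lm j * κsw i j - ∑ k, lm j * κaw k j = lm j * Real.log 2 := by
      intro j
      rw [← Finset.mul_sum, ← Finset.mul_sum]
      have h3 : ∑ i, κsw i j = Real.log 2 + ∑ k, κaw k j := hβ j
      rw [h3]
      ring
    rw [Finset.sum_congr rfl fun j _ => h1 j, ← Finset.sum_mul, hlam, one_mul]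
  have r4 : 0 ≤ ∑ i, (q i - c) * (∑ j, lm j * κsw i j - c * Real.log 2) +
      ∑ k, c * ∑ j, lm j * κaw k j := by
    rw [← Finset.sum_congr rfl fun i _ => r1 i, ← Finset.sum_congr rfl fun k _ => r2 k]
    exact key
  have r5 : ∑ i, (q i - c) * (∑ j, lm j * κsw i j - c * Real.log 2) +
      ∑ k, c * ∑ j, lm j * κaw k j =
      ∑ i, q i * ∑ j, lm j * κsw i j - Real.log 2 / m := by
    have h1 : ∑ i, (q i - c) * (∑ j, lm j * κsw i j - c * Real.log 2) =
        ∑ i, q i * ∑ j, lm j * κsw i j - c * ∑ i, ∑ j, lm j * κsw i j -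
          c * Real.log 2 * ∑ i, q i + m * (c * c * Real.log 2) := by
      have h2 : m * (c * c * Real.log 2) = ∑ _i : ι, c * c * Real.log 2 := by
        rw [Finset.sum_const, Finset.card_univ, nsmul_eq_mul]
      rw [h2, Finset.mul_sum, Finset.mul_sum, ← Finset.sum_sub_distrib, ← Finset.sum_sub_distrib,
        ← Finset.sum_add_distrib]
      exact Finset.sum_congr rfl fun i _ => by ring
    rw [h1, hq, ← Finset.mul_sum]
    have h3 : m * c = 1 := by rw [hc]; field_simp
    have h4 : Real.log 2 / m = c * Real.log 2 := by rw [hc]; ring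
    rw [h4]
    linear_combination (-c) * r3 + (c * Real.log 2) * h3
  rw [r5] at r4
  have r6 : ∑ i, q i * ∑ j, lm j * κsw i j = ∑ j, lm j * ∑ i, q i * κsw i j := by
    simp only [Finset.mul_sum]
    rw [Finset.sum_comm]
    exact Finset.sum_congr rfl fun j _ => Finset.sum_congr rfl fun i _ => by ring
  rw [r6] at r4
  have : Nonempty (Fin (Fintype.card ι)) := ⟨⟨0, Fintype.card_pos⟩⟩
  obtain ⟨j, hj⟩ : ∃ j, Real.log 2 / m ≤ ∑ i, q i * κsw i j := by
    by_contra hcon
    push Not at hcon
    have h1 : ∑ j, lm j * ∑ i, q i * κsw i j < ∑ j, lm j * (Real.log 2 / m) :=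
      Finset.sum_lt_sum_of_nonempty univ_nonempty fun j _ =>
        mul_lt_mul_of_pos_left (hcon j) (hlmpos j)
    rw [← Finset.sum_mul, hlam, one_mul] at h1
    linarith
  refine ⟨w j, hw1 j, fun i h => hws j i (by rw [h, mul_conj_self (hs i), sub_self]), hj.trans (le_of_eq (Finset.sum_congr rfl fun i _ => ?_))⟩
  have h1 : ‖w j - s i‖ = ‖1 - conj (s i) * w j‖ := by
    have h2 : w j - s i = -(s i * (1 - conj (s i) * w j)) := by
      linear_combination (w j) * mul_conj_self (hs i) * (-1)
    rw [h2, norm_neg, norm_mul, hs i, one_mul]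
  rw [h1]

/-- The weighted product of distances: general weights and points. -/
theorem main_thm (r : ℕ) (hr : 1 ≤ r) (z : Fin r → ℂ) (hz : ∀ j, ‖z j‖ = 1) (p : Fin r → ℝ)
    (hp : ∀ j, 0 ≤ p j) (hsum : ∑ j, p j = r) :
    ∃ w : ℂ, ‖w‖ = 1 ∧ 2 ≤ ∏ j, ‖w - z j‖ ^ p j := by
  classical
  have hr0 : (0 : ℝ) < r := by exact_mod_cast hr
  set S : Finset ℂ := (univ.filter fun j => 0 < p j).image z with hS
  have hmem : ∀ j, 0 < p j → z j ∈ S := fun j hj =>
    Finset.mem_image_of_mem z (Finset.mem_filter.2 ⟨mem_univ _, hj⟩)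
  have hne : S.Nonempty := by
    by_contra h
    rw [Finset.not_nonempty_iff_eq_empty] at h
    have h1 : ∀ j, p j = 0 := fun j => by
      by_contra h2
      have := hmem j (lt_of_le_of_ne (hp j) (Ne.symm h2))
      rw [h] at this
      exact Finset.notMem_empty _ this
    rw [Finset.sum_congr rfl fun j _ => h1 j, Finset.sum_const_zero] at hsum
    exact hr0.ne hsum
  have hnonempty : Nonempty S := hne.to_subtype
  have hSn : ∀ x : S, ‖(x : ℂ)‖ = 1 := by
    rintro ⟨x, hx⟩
    obtain ⟨j, -, rfl⟩ := Finset.mem_image.1 hx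
    exact hz j
  let q : S → ℝ := fun x => (∑ j ∈ univ.filter (fun j => z j = x), p j) / r
  have hq0 : ∀ x, 0 < q x := by
    rintro ⟨x, hx⟩
    obtain ⟨j, hj, rfl⟩ := Finset.mem_image.1 hx
    refine div_pos (Finset.sum_pos' (fun i _ => hp i) ⟨j, ?_, (Finset.mem_filter.1 hj).2⟩) hr0
    simp
  -- regrouping sums over the points
  have hgroup : ∀ f : ℂ → ℝ, ∑ x : S, q x * f x = (∑ j, p j * f (z j)) / r := by
    intro f
    have h1 : ∑ x : S, q x * f x =
        ∑ x ∈ S, ∑ j ∈ univ.filter (fun j => z j = x), p j * f (z j) / r := by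
      rw [← Finset.sum_coe_sort S]
      refine Finset.sum_congr rfl fun x _ => ?_
      have : q x = (∑ j ∈ univ.filter (fun j => z j = x), p j) / r := rfl
      rw [this, Finset.sum_div, Finset.sum_mul]
      refine Finset.sum_congr rfl fun j hj => ?_
      rw [(Finset.mem_filter.1 hj).2]
      ring
    rw [h1, Finset.sum_div]
    have h2 : ∑ j, p j * f (z j) / r = ∑ j ∈ univ.filter (fun j => 0 < p j), p j * f (z j) / r := by
      rw [Finset.sum_filter]
      refine Finset.sum_congr rfl fun j _ => ?_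
      split_ifs with h
      · rfl
      · have : p j = 0 := le_antisymm (not_lt.1 h) (hp j)
        rw [this]; simp
    rw [h2, ← Finset.sum_fiberwise_of_maps_to (s := univ.filter fun j => 0 < p j) (t := S) (g := z)
      (fun j hj => hmem j (Finset.mem_filter.1 hj).2)]
    refine Finset.sum_congr rfl fun x _ => ?_
    rw [Finset.filter_filter]
    symm
    refine Finset.sum_subset ?_ ?_
    · intro j hj
      rw [Finset.mem_filter] at hj ⊢
      exact ⟨hj.1, hj.2.2⟩
    · intro j hj hj'
      rw [Finset.mem_filter] at hj hj'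
      have : ¬ 0 < p j := fun h => hj' ⟨mem_univ _, h, hj.2⟩
      have : p j = 0 := le_antisymm (not_lt.1 this) (hp j)
      rw [this]; simp
  have hq : ∑ x, q x = 1 := by
    have := hgroup fun _ => 1
    simp only [mul_one] at this
    rw [this, hsum, div_self hr0.ne']
  obtain ⟨w, hw1, hws, hw⟩ := core (s := fun x : S => (x : ℂ)) (q := q) hSn
    Subtype.coe_injective hq0 hq
  refine ⟨w, hw1, ?_⟩
  rw [hgroup fun x => Real.log ‖w - x‖] at hw
  have hcard : (Fintype.card S : ℝ) ≤ r := by
    have h1 : Fintype.card S ≤ r := by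
      rw [Fintype.card_coe, hS]
      refine Finset.card_image_le.trans ((Finset.card_filter_le _ _).trans ?_)
      simp
    exact_mod_cast h1
  have hcard0 : (0 : ℝ) < Fintype.card S := by exact_mod_cast Fintype.card_pos
  have hlog2 : 0 < Real.log 2 := Real.log_pos (by norm_num)
  have h2 : Real.log 2 ≤ ∑ j, p j * Real.log ‖w - z j‖ := by
    rw [le_div_iff₀ hr0, div_mul_eq_mul_div, div_le_iff₀ hcard0] at hw
    by_contra hlt
    push Not at hlt
    have h3 : Real.log 2 * (Fintype.card S : ℝ) ≤ Real.log 2 * r :=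
      mul_le_mul_of_nonneg_left hcard hlog2.le
    have h4 : (∑ j, p j * Real.log ‖w - z j‖) * (Fintype.card S : ℝ) <
        Real.log 2 * (Fintype.card S : ℝ) := mul_lt_mul_of_pos_right hlt hcard0
    linarith
  have h5 : ∏ j, ‖w - z j‖ ^ p j = Real.exp (∑ j, p j * Real.log ‖w - z j‖) := by
    rw [Real.exp_sum]
    refine Finset.prod_congr rfl fun j _ => ?_
    rcases (hp j).eq_or_lt with h | h
    · rw [← h]; simp
    · have hpos : 0 < ‖w - z j‖ := by
        rw [norm_pos_iff, sub_ne_zero]
        exact hws ⟨z j, hmem j h⟩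
      rw [Real.rpow_def_of_pos hpos, mul_comm]
  rw [h5]
  calc (2 : ℝ) = Real.exp (Real.log 2) := (Real.exp_log (by norm_num)).symm
    _ ≤ _ := Real.exp_le_exp.2 h2

end Pool.Agent.Q194.Circ
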