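import Mathlib

/-!
# A positivity lemma for finite sums of logarithms
-/

set_option autoImplicit false

noncomputable section

namespace Pool.Agent.Q194.Circ

open Complex Metric Set Filter Topology
open scoped Real ComplexConjugate

/-- Cauchy kernel with pole `1 / conj x`, times `conj x`. -/
def ker (x z : ℂ) : ℂ := conj x / (1 - z * conj x)

theorem one_sub_ne {x z : ℂ} (hx : ‖x‖ ≤ 1) (hz : ‖z‖ < 1) : 1 - z * conj x ≠ 0 := by
  intro h
  have h1 : z * conj x = 1 := (sub_eq_zero.1 h).symm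
  have h2 : ‖z * conj x‖ < 1 := by
    rw [norm_mul, RCLike.norm_conj]
    calc ‖z‖ * ‖x‖ ≤ ‖z‖ * 1 := mul_le_mul_of_nonneg_left hx (norm_nonneg _)
      _ < 1 := by linarith
  rw [h1, norm_one] at h2
  exact lt_irrefl _ h2

theorem ker_continuousOn {x : ℂ} (hx : ‖x‖ ≤ 1) {t : ℝ} (ht : t < 1) :
    ContinuousOn (ker x) (closedBall 0 t) := by
  unfold ker
  refine ContinuousOn.div continuousOn_const (by fun_prop) fun z hz => one_sub_ne hx ?_
  rw [mem_closedBall_zero_iff] at hz
  linarith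

theorem avg_ker {x y : ℂ} (hx : ‖x‖ ≤ 1) (hy : ‖y‖ ≤ 1) {t : ℝ} (ht0 : 0 < t) (ht : t < 1) :
    Real.circleAverage (fun z => ker x z * conj (ker y z)) 0 t =
      conj x * y / (1 - t ^ 2 * (conj x * y)) := by
  rw [Real.circleAverage_eq_circleIntegral ht0.ne']
  have hw : (t : ℂ) ^ 2 * y ∈ ball (0 : ℂ) t := by
    rw [mem_ball_zero_iff, norm_mul, norm_pow, norm_real, Real.norm_of_nonneg ht0.le]
    have : t ^ 2 * ‖y‖ ≤ t ^ 2 * 1 := mul_le_mul_of_nonneg_left hy (by positivity)
    nlinarith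
  have hd : DifferentiableOn ℂ (fun z => y * ker x z) (closedBall 0 t) := by
    unfold ker
    refine (differentiableOn_const y).mul ?_
    refine DifferentiableOn.div (differentiableOn_const _) (by fun_prop) fun z hz =>
      one_sub_ne hx ?_
    rw [mem_closedBall_zero_iff] at hz
    linarith
  have key := hd.circleIntegral_sub_inv_smul hw
  have hcongr : (∮ z in C((0:ℂ), t), (z - 0)⁻¹ • (ker x z * conj (ker y z))) =
      ∮ z in C((0:ℂ), t), (z - (t : ℂ) ^ 2 * y)⁻¹ • (y * ker x z) := by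
    refine circleIntegral.integral_congr ht0.le fun z hz => ?_
    rw [mem_sphere_zero_iff_norm] at hz
    have hz0 : z ≠ 0 := by
      rintro rfl
      rw [norm_zero] at hz
      exact ht0.ne hz
    have hzz : z * conj z = (t : ℂ) ^ 2 := by
      rw [mul_conj, normSq_eq_norm_sq, hz]
      push_cast
      ring
    have hcz : conj z = (t : ℂ) ^ 2 / z := by
      rw [eq_div_iff hz0, mul_comm]
      exact hzz
    have h1 : 1 - conj z * y ≠ 0 := by
      have := one_sub_ne (x := y) (z := z) hy (by rw [hz]; exact ht)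
      intro h
      apply this
      have h2 := congrArg conj h
      rw [map_sub, map_mul, conj_conj, map_one, map_zero] at h2
      exact h2
    have h2 : z - (t : ℂ) ^ 2 * y ≠ 0 := by
      intro h
      apply h1
      rw [hcz]
      field_simp
      rw [mul_zero]
      exact h
    simp only [smul_eq_mul, sub_zero]
    unfold ker
    rw [map_div₀, map_sub, map_mul, conj_conj, map_one]
    have h3 : z⁻¹ * (y / (1 - conj z * y)) = (z - (t : ℂ) ^ 2 * y)⁻¹ * y := by
      rw [hcz] at h1 ⊢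
      field_simp
    calc z⁻¹ * (conj x / (1 - z * conj x) * (y / (1 - conj z * y))) =
        (z⁻¹ * (y / (1 - conj z * y))) * (conj x / (1 - z * conj x)) := by ring
      _ = _ := by rw [h3]; ring
  rw [hcongr, key, smul_smul, inv_mul_cancel₀ (by simp [Real.pi_ne_zero]), one_smul]
  unfold ker
  rw [mul_div_assoc']
  congr 1
  · ring
  · ring

section

variable {ι κ : Type*} [Fintype ι] [Fintype κ] (x : ι → ℂ) (y : κ → ℂ) (c : ι → ℝ) (d : κ → ℝ)

/-- Sum of kernels. -/
def kerSum (z : ℂ) : ℂ := ∑ i, (c i : ℂ) * ker (x i) z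

variable {x y}

theorem ball_ne {u : ℂ} (hu : ‖u‖ ≤ 1) {τ : ℝ} (h0 : 0 ≤ τ) (h1 : τ < 1) :
    0 < (1 - (τ : ℂ) * u).re := by
  have h2 : ((τ : ℂ) * u).re ≤ ‖(τ : ℂ) * u‖ := re_le_norm _
  rw [norm_mul, norm_real, Real.norm_of_nonneg h0] at h2
  have h3 : τ * ‖u‖ ≤ τ * 1 := mul_le_mul_of_nonneg_left hu h0
  rw [sub_re, one_re]
  linarith

theorem hasDerivAt_logn {u : ℂ} (hu : ‖u‖ ≤ 1) {τ : ℝ} (h0 : 0 ≤ τ) (h1 : τ < 1) :
    HasDerivAt (fun τ : ℝ => Real.log ‖1 - (τ : ℂ) * u‖) (-(u / (1 - (τ : ℂ) * u)).re) τ := by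
  have hs : (1 - (τ : ℂ) * u) ∈ slitPlane := Or.inl (ball_ne hu h0 h1)
  have h2 : HasDerivAt (fun τ : ℝ => 1 - (τ : ℂ) * u) (-u) τ := by
    have := ((hasDerivAt_id τ).ofReal_comp.mul_const u).const_sub 1
    simpa using this
  have h3 : HasDerivAt (fun τ : ℝ => Complex.log (1 - (τ : ℂ) * u)) (-u / (1 - (τ : ℂ) * u)) τ :=
    h2.clog_real hs
  have h4 := reCLM.hasFDerivAt.comp_hasDerivAt τ h3
  have h5 : (fun τ : ℝ => Real.log ‖1 - (τ : ℂ) * u‖) =
      (reCLM : ℂ → ℝ) ∘ fun τ : ℝ => Complex.log (1 - (τ : ℂ) * u) := by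
    funext τ
    simp [log_re]
  have h6 : -(u / (1 - (τ : ℂ) * u)).re = reCLM (-u / (1 - (τ : ℂ) * u)) := by
    rw [reCLM_apply, neg_div, neg_re]
  rw [h5, h6]
  exact h4

theorem continuousAt_logn {u : ℂ} (hne : u ≠ 1) :
    ContinuousAt (fun τ : ℝ => Real.log ‖1 - (τ : ℂ) * u‖) 1 := by
  refine ContinuousAt.log (by fun_prop) ?_
  rw [ofReal_one, one_mul, norm_ne_zero_iff, sub_ne_zero]
  exact hne.symm

theorem kerSum_continuousOn (hx : ∀ i, ‖x i‖ ≤ 1) {t : ℝ} (ht : t < 1) :
    ContinuousOn (kerSum x c) (closedBall 0 t) := by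
  unfold kerSum
  exact continuousOn_finsetSum _ fun i _ => continuousOn_const.mul (ker_continuousOn (hx i) ht)

theorem avg_kerSum (hx : ∀ i, ‖x i‖ ≤ 1) (hy : ∀ j, ‖y j‖ ≤ 1) {t : ℝ} (ht0 : 0 < t)
    (ht : t < 1) :
    Real.circleAverage (fun z => kerSum x c z * conj (kerSum y d z)) 0 t =
      ∑ i, ∑ j, (c i : ℂ) * d j * (conj (x i) * y j / (1 - t ^ 2 * (conj (x i) * y j))) := by
  have h1 : (fun z => kerSum x c z * conj (kerSum y d z)) =
      fun z => ∑ i, ∑ j, ((c i : ℂ) * d j) • (ker (x i) z * conj (ker (y j) z)) := by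
    funext z
    unfold kerSum
    rw [map_sum, Finset.sum_mul_sum]
    refine Finset.sum_congr rfl fun i _ => Finset.sum_congr rfl fun j _ => ?_
    rw [map_mul, conj_ofReal, smul_eq_mul]
    ring
  have hs : sphere (0 : ℂ) |t| ⊆ closedBall 0 t := by
    rw [abs_of_pos ht0]
    exact sphere_subset_closedBall
  have hcc : ∀ i j, ContinuousOn
      (fun z => ((c i : ℂ) * d j) • (ker (x i) z * conj (ker (y j) z))) (sphere 0 |t|) := by
    intro i j
    simp only [smul_eq_mul]
    refine continuousOn_const.mul (ContinuousOn.mul ?_ ?_)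
    · exact (ker_continuousOn (hx i) ht).mono hs
    · exact continuous_conj.comp_continuousOn ((ker_continuousOn (hy j) ht).mono hs)
  have hci : ∀ i j, CircleIntegrable
      (fun z => ((c i : ℂ) * d j) • (ker (x i) z * conj (ker (y j) z))) 0 t := fun i j =>
    (hcc i j).circleIntegrable'
  have hci' : ∀ i, CircleIntegrable
      (fun z => ∑ j, ((c i : ℂ) * d j) • (ker (x i) z * conj (ker (y j) z))) 0 t := fun i =>
    (continuousOn_finsetSum _ fun j _ => hcc i j).circleIntegrable'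
  rw [h1, Real.circleAverage_fun_sum fun i _ => hci' i]
  refine Finset.sum_congr rfl fun i _ => ?_
  rw [Real.circleAverage_fun_sum fun j _ => hci i j]
  refine Finset.sum_congr rfl fun j _ => ?_
  rw [Real.circleAverage_fun_smul, avg_ker (hx i) (hy j) ht0 ht, smul_eq_mul]

/-- The positivity lemma. -/
theorem pos_lemma (hx : ∀ i, ‖x i‖ ≤ 1) (hy : ∀ j, ‖y j‖ ≤ 1)
    (hne : ∀ i j, conj (x i) * y j ≠ 1)
    (H : ∀ z : ℂ, z ≠ 0 → ‖z‖ < 1 → (kerSum x c z * conj (kerSum y d z)).re ≤ 0) :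
    0 ≤ ∑ i, ∑ j, c i * d j * Real.log ‖1 - conj (x i) * y j‖ := by
  let Ψ : ℝ → ℝ := fun τ => ∑ i, ∑ j, c i * d j * Real.log ‖1 - (τ : ℂ) * (conj (x i) * y j)‖
  have hu : ∀ i j, ‖conj (x i) * y j‖ ≤ 1 := fun i j => by
    rw [norm_mul, RCLike.norm_conj]
    exact mul_le_one₀ (hx i) (norm_nonneg _) (hy j)
  have hder : ∀ τ : ℝ, 0 ≤ τ → τ < 1 → HasDerivAt Ψ (∑ i, ∑ j, c i * d j *
      (-((conj (x i) * y j) / (1 - (τ : ℂ) * (conj (x i) * y j))).re)) τ := by
    intro τ h0 h1
    refine HasDerivAt.fun_sum fun i _ => HasDerivAt.fun_sum fun j _ => ?_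
    exact (hasDerivAt_logn (hu i j) h0 h1).const_mul _
  have hcont : ContinuousOn Ψ (Icc 0 1) := by
    intro τ hτ
    rcases lt_or_eq_of_le hτ.2 with h | h
    · exact (hder τ hτ.1 h).continuousAt.continuousWithinAt
    · rw [h]
      refine ContinuousAt.continuousWithinAt ?_
      refine tendsto_finsetSum _ fun i _ => tendsto_finsetSum _ fun j _ => ?_
      exact (continuousAt_logn (hne i j)).const_mul _
  have hmono : MonotoneOn Ψ (Icc 0 1) := by
    refine monotoneOn_of_deriv_nonneg (convex_Icc 0 1) hcont ?_ ?_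
    · rw [interior_Icc]
      intro τ hτ
      exact (hder τ hτ.1.le hτ.2).differentiableAt.differentiableWithinAt
    · rw [interior_Icc]
      intro τ hτ
      rw [(hder τ hτ.1.le hτ.2).deriv]
      set t := Real.sqrt τ with ht
      have ht0 : 0 < t := Real.sqrt_pos.2 hτ.1
      have ht1 : t < 1 := by
        rw [ht, Real.sqrt_lt' one_pos, one_pow]
        exact hτ.2
      have htτ : (τ : ℂ) = (t : ℂ) ^ 2 := by
        rw [← ofReal_pow, Real.sq_sqrt hτ.1.le]
      have hs : sphere (0 : ℂ) |t| ⊆ closedBall 0 t := by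
        rw [abs_of_pos ht0]
        exact sphere_subset_closedBall
      have hci : CircleIntegrable (fun z => kerSum x c z * conj (kerSum y d z)) 0 t := by
        refine ContinuousOn.circleIntegrable' (ContinuousOn.mul ?_ ?_)
        · exact (kerSum_continuousOn c hx ht1).mono hs
        · exact continuous_conj.comp_continuousOn ((kerSum_continuousOn d hy ht1).mono hs)
      have h1 := reCLM.circleAverage_comp_comm hci
      rw [avg_kerSum c d hx hy ht0 ht1] at h1
      have h2 : Real.circleAverage (reCLM ∘ fun z => kerSum x c z * conj (kerSum y d z)) 0 t ≤ 0 := by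
        refine Real.circleAverage_mono_on_of_le_circle ?_ fun z hz => ?_
        · refine ContinuousOn.circleIntegrable' ?_
          refine reCLM.continuous.comp_continuousOn (ContinuousOn.mul ?_ ?_)
          · exact (kerSum_continuousOn c hx ht1).mono hs
          · exact continuous_conj.comp_continuousOn ((kerSum_continuousOn d hy ht1).mono hs)
        · rw [mem_sphere_zero_iff_norm, abs_of_pos ht0] at hz
          refine H z ?_ ?_
          · rw [← norm_pos_iff, hz]; exact ht0
          · rw [hz]; exact ht1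
      rw [h1, reCLM_apply, re_sum] at h2
      have h3 : ∑ i, ∑ j, c i * d j *
          (-((conj (x i) * y j) / (1 - (τ : ℂ) * (conj (x i) * y j))).re) =
          -∑ i, (∑ j, (c i : ℂ) * d j *
            (conj (x i) * y j / (1 - t ^ 2 * (conj (x i) * y j)))).re := by
        rw [← Finset.sum_neg_distrib]
        refine Finset.sum_congr rfl fun i _ => ?_
        rw [re_sum, ← Finset.sum_neg_distrib]
        refine Finset.sum_congr rfl fun j _ => ?_
        rw [← htτ, ← ofReal_mul, re_ofReal_mul]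
        ring
      rw [h3]
      linarith
  have h0 : Ψ 0 = 0 := by simp [Ψ]
  have h1 : Ψ 1 = ∑ i, ∑ j, c i * d j * Real.log ‖1 - conj (x i) * y j‖ := by simp [Ψ]
  rw [← h1, ← h0]
  exact hmono (left_mem_Icc.2 zero_le_one) (right_mem_Icc.2 zero_le_one) zero_le_one

end

end Pool.Agent.Q194.Circ
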