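import Pool.Agent.Q194.Circ.Alg

/-!
# Zeros of the numerator, the dual measure
-/

set_option autoImplicit false

noncomputable section

namespace Pool.Agent.Q194.Circ

open Complex Polynomial Finset
open scoped ComplexConjugate

theorem herg_re {u : ℂ} : ((1 + u) / (1 - u)).re = (1 - ‖u‖ ^ 2) / ‖1 - u‖ ^ 2 := by
  rw [div_re, ← normSq_eq_norm_sq, ← normSq_eq_norm_sq, ← add_div]
  congr 1
  simp only [normSq_apply, add_re, one_re, sub_re, add_im, one_im, sub_im]
  ring

variable {ι : Type*} [Fintype ι] [DecidableEq ι] {s : ι → ℂ} {q : ι → ℝ}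

omit [DecidableEq ι] in
theorem QQ_re (hs : ∀ i, ‖s i‖ = 1) (z : ℂ) :
    (QQ s q z).re = (1 - ‖z‖ ^ 2) * ∑ i, q i / ‖1 - z * conj (s i)‖ ^ 2 := by
  unfold QQ
  rw [re_sum, Finset.mul_sum]
  refine Finset.sum_congr rfl fun i _ => ?_
  rw [re_ofReal_mul, herg_re, norm_mul, RCLike.norm_conj, hs i, mul_one]
  ring

theorem eq_of_one_sub {x z : ℂ} (hx : ‖x‖ = 1) (h : 1 - z * conj x = 0) : z = x := by
  have h1 : z * conj x = 1 := (sub_eq_zero.1 h).symm
  have h2 : x * conj x = 1 := by rw [mul_conj, normSq_eq_norm_sq, hx]; simp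
  have h3 : conj x ≠ 0 := by
    intro h0
    rw [h0, mul_zero] at h1
    exact zero_ne_one h1
  exact mul_right_cancel₀ h3 (h1.trans h2.symm)

theorem one_sub_ne' {x z : ℂ} (hx : ‖x‖ = 1) (h : z ≠ x) : 1 - z * conj x ≠ 0 :=
  fun h' => h (eq_of_one_sub hx h')

theorem mul_conj_self {x : ℂ} (hx : ‖x‖ = 1) : x * conj x = 1 := by
  rw [mul_conj, normSq_eq_norm_sq, hx]; simp

theorem N_eval_s (hs : ∀ i, ‖s i‖ = 1) (inj : Function.Injective s) (hq0 : ∀ i, 0 < q i) (i : ι) :
    (N s q).eval (s i) ≠ 0 := by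
  rw [eval_N, Finset.sum_eq_single i]
  · rw [mul_conj_self (hs i)]
    refine mul_ne_zero (mul_ne_zero ?_ (by norm_num)) ?_
    · exact_mod_cast (hq0 i).ne'
    · refine Finset.prod_ne_zero_iff.2 fun l hl => one_sub_ne' (hs l) ?_
      exact fun h => (Finset.mem_erase.1 hl).1 (inj h).symm
  · intro j _ hj
    refine mul_eq_zero_of_right _ (Finset.prod_eq_zero (i := i) ?_ ?_)
    · exact Finset.mem_erase.2 ⟨hj.symm, mem_univ _⟩
    · rw [mul_conj_self (hs i), sub_self]
  · intro h; exact absurd (mem_univ _) h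

omit [DecidableEq ι] in
theorem P_eval_s (hs : ∀ i, ‖s i‖ = 1) (i : ι) : (P s).eval (s i) = 0 := by
  rw [eval_P]
  refine Finset.prod_eq_zero (mem_univ i) ?_
  rw [mul_conj_self (hs i), sub_self]

/-- If `N` or `P + N` vanishes at `z` then `z` is not one of the points. -/
theorem ne_of_comb (hs : ∀ i, ‖s i‖ = 1) (inj : Function.Injective s) (hq0 : ∀ i, 0 < q i)
    {z a : ℂ} (h : a * (P s).eval z + (N s q).eval z = 0) (i : ι) : 1 - z * conj (s i) ≠ 0 := by
  intro h0
  have hz := eq_of_one_sub (hs i) h0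
  rw [hz, P_eval_s hs, mul_zero, zero_add] at h
  exact N_eval_s hs inj hq0 i h

omit [DecidableEq ι] in
theorem P_ne {z : ℂ} (h : ∀ i, 1 - z * conj (s i) ≠ 0) : (P s).eval z ≠ 0 := by
  rw [eval_P]
  exact Finset.prod_ne_zero_iff.2 fun i _ => h i

omit [DecidableEq ι] in
theorem sum_pos_aux (hq0 : ∀ i, 0 < q i) [Nonempty ι] {z : ℂ} (h : ∀ i, 1 - z * conj (s i) ≠ 0) :
    0 < ∑ i, q i / ‖1 - z * conj (s i)‖ ^ 2 :=
  Finset.sum_pos (fun i _ => div_pos (hq0 i) (pow_pos (norm_pos_iff.2 (h i)) 2)) univ_nonempty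

theorem N_root (hs : ∀ i, ‖s i‖ = 1) (inj : Function.Injective s) (hq0 : ∀ i, 0 < q i)
    [Nonempty ι] {z : ℂ} (h : (N s q).eval z = 0) :
    ‖z‖ = 1 ∧ ∀ i, 1 - z * conj (s i) ≠ 0 := by
  have h1 : ∀ i, 1 - z * conj (s i) ≠ 0 :=
    ne_of_comb hs inj hq0 (a := 0) (by rw [zero_mul, zero_add]; exact h)
  refine ⟨?_, h1⟩
  rw [eval_N_eq s q h1] at h
  have h2 : QQ s q z = 0 := (mul_eq_zero.1 h).resolve_left (P_ne h1)
  have h3 := QQ_re (q := q) hs z
  rw [h2, zero_re] at h3
  have h4 := (mul_eq_zero.1 h3.symm).resolve_right (sum_pos_aux hq0 h1).ne'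
  have h5 : ‖z‖ ^ 2 = 1 := by linarith
  exact (pow_eq_one_iff_of_nonneg (norm_nonneg _) two_ne_zero).1 h5

theorem A_root (hs : ∀ i, ‖s i‖ = 1) (inj : Function.Injective s) (hq0 : ∀ i, 0 < q i)
    [Nonempty ι] {z : ℂ} (h : (P s).eval z + (N s q).eval z = 0) :
    1 < ‖z‖ ∧ (∀ i, 1 - z * conj (s i) ≠ 0) ∧ QQ s q z = -1 := by
  have h1 : ∀ i, 1 - z * conj (s i) ≠ 0 :=
    ne_of_comb hs inj hq0 (a := 1) (by rw [one_mul]; exact h)
  rw [eval_N_eq s q h1] at h
  have h2 : QQ s q z = -1 := by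
    have h3 : (P s).eval z * (1 + QQ s q z) = 0 := by linear_combination h
    have := (mul_eq_zero.1 h3).resolve_left (P_ne h1)
    linear_combination this
  refine ⟨?_, h1, h2⟩
  have h3 := QQ_re (q := q) hs z
  rw [h2, neg_re, one_re] at h3
  have h4 := sum_pos_aux hq0 h1
  by_contra h5
  have h6 : ‖z‖ ^ 2 ≤ 1 := by
    have := norm_nonneg z
    nlinarith
  nlinarith

omit [DecidableEq ι] in
/-- Reflection. -/
theorem QQ_refl (hs : ∀ i, ‖s i‖ = 1) {z : ℂ} (hz : z ≠ 0) (h : ∀ i, 1 - z * conj (s i) ≠ 0) :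
    QQ s q (conj z)⁻¹ = -conj (QQ s q z) := by
  unfold QQ
  rw [map_sum, ← Finset.sum_neg_distrib]
  refine Finset.sum_congr rfl fun i _ => ?_
  have hcz : conj z ≠ 0 := (_root_.map_ne_zero _).2 hz
  have h1 : 1 - conj z * s i ≠ 0 := by
    intro h0
    apply h i
    have := congrArg conj h0
    rw [map_sub, map_mul, conj_conj, map_one, map_zero] at this
    exact this
  have hm := mul_conj_self (hs i)
  rw [map_mul, map_div₀, map_add, map_sub, map_one, map_mul, conj_conj, conj_ofReal, ← mul_neg]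
  congr 1
  have h2 : 1 - (conj z)⁻¹ * conj (s i) ≠ 0 := by
    intro h0
    apply h1
    have h3 : conj z * (1 - (conj z)⁻¹ * conj (s i)) = 0 := by rw [h0, mul_zero]
    rw [mul_sub, mul_one, ← mul_assoc, mul_inv_cancel₀ hcz, one_mul] at h3
    have h4 : s i * (conj z - conj (s i)) = 0 := by rw [h3, mul_zero]
    rw [mul_sub, hm] at h4
    linear_combination -h4
  rw [div_eq_iff h2, neg_mul, div_mul_eq_mul_div, eq_neg_iff_add_eq_zero, ← mul_left_inj' h1,
    add_mul, zero_mul, div_mul_cancel₀ _ h1]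
  field_simp
  linear_combination (-2 * conj z) * hm


/-! ### Derivative of the Herglotz function at a zero -/

omit [DecidableEq ι] in
theorem hasDerivAt_QQ {z : ℂ} (h : ∀ i, 1 - z * conj (s i) ≠ 0) :
    HasDerivAt (QQ s q) (∑ i, (q i : ℂ) * (2 * conj (s i) / (1 - z * conj (s i)) ^ 2)) z := by
  unfold QQ
  refine HasDerivAt.fun_sum fun i _ => HasDerivAt.const_mul _ ?_
  have h1 : HasDerivAt (fun z : ℂ => 1 + z * conj (s i)) (conj (s i)) z := by
    simpa using ((hasDerivAt_id z).mul_const (conj (s i))).const_add 1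
  have h2 : HasDerivAt (fun z : ℂ => 1 - z * conj (s i)) (-conj (s i)) z := by
    simpa using ((hasDerivAt_id z).mul_const (conj (s i))).const_sub 1
  have h3 := h1.fun_div h2 (h i)
  convert h3 using 1
  ring

/-- The dual weight at `w`. -/
def lam (s : ι → ℂ) (q : ι → ℝ) (w : ℂ) : ℝ := (4 * ∑ i, q i / ‖1 - w * conj (s i)‖ ^ 2)⁻¹

omit [DecidableEq ι] in
theorem lam_pos (hq0 : ∀ i, 0 < q i) [Nonempty ι] {z : ℂ} (h : ∀ i, 1 - z * conj (s i) ≠ 0) :
    0 < lam s q z := by
  unfold lam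
  have := sum_pos_aux hq0 h
  positivity

theorem kernel_id {u : ℂ} (hu : ‖u‖ = 1) (h : 1 - u ≠ 0) :
    -(u / (1 - u) ^ 2) = ((1 / ‖1 - u‖ ^ 2 : ℝ) : ℂ) := by
  have h1 := mul_conj_self hu
  have h2 : ((‖1 - u‖ ^ 2 : ℝ) : ℂ) = (1 - u) * (1 - conj u) := by
    rw [← normSq_eq_norm_sq, ← mul_conj, map_sub, map_one]
  have h3 : 1 - conj u ≠ 0 := by
    intro h0
    apply h
    have := congrArg conj h0
    rw [map_sub, conj_conj, map_one, map_zero] at this
    exact this
  rw [ofReal_div, h2, ofReal_one, ← neg_div, div_eq_div_iff (pow_ne_zero 2 h) (mul_ne_zero h h3)]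
  linear_combination (1 - u) * h1

theorem N_deriv_root (hs : ∀ i, ‖s i‖ = 1) (inj : Function.Injective s) (hq0 : ∀ i, 0 < q i)
    [Nonempty ι] {z : ℂ} (h : (N s q).eval z = 0) :
    -z * (derivative (N s q)).eval z = (P s).eval z / (2 * lam s q z : ℝ) := by
  obtain ⟨hz, h1⟩ := N_root hs inj hq0 h
  have h2 : QQ s q z = 0 := by
    rw [eval_N_eq s q h1] at h
    exact (mul_eq_zero.1 h).resolve_left (P_ne h1)
  have h3 := (N s q).hasDerivAt z
  have h4 := ((P s).hasDerivAt z).mul (hasDerivAt_QQ (q := q) h1)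
  have hev : ∀ᶠ y in nhds z, (N s q).eval y = ((fun x => eval x (P s)) * QQ s q) y := by
    have : ∀ i, ∀ᶠ y in nhds z, 1 - y * conj (s i) ≠ 0 := fun i => by
      refine ContinuousAt.eventually_ne (by fun_prop) (h1 i)
    exact (Filter.eventually_all.2 this).mono fun y hy => by
      rw [Pi.mul_apply]; exact eval_N_eq s q hy
  have h5 := h3.congr_of_eventuallyEq (f₁ := (fun x => eval x (P s)) * QQ s q)
    (hev.mono fun y hy => hy.symm)
  have h6 := h5.unique h4
  rw [h6, h2, mul_zero, zero_add]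
  have h7 : -z * ∑ i, (q i : ℂ) * (2 * conj (s i) / (1 - z * conj (s i)) ^ 2) =
      ((2 * ∑ i, q i / ‖1 - z * conj (s i)‖ ^ 2 : ℝ) : ℂ) := by
    rw [ofReal_mul, ofReal_sum, Finset.mul_sum, Finset.mul_sum]
    refine Finset.sum_congr rfl fun i _ => ?_
    have h8 := kernel_id (u := z * conj (s i)) (by
      rw [norm_mul, RCLike.norm_conj, hz, hs i, one_mul]) (h1 i)
    rw [div_eq_mul_one_div (q i), ofReal_mul, ← h8, ofReal_ofNat]
    ring
  have h9 : (2 * lam s q z : ℝ) = (2 * ∑ i, q i / ‖1 - z * conj (s i)‖ ^ 2)⁻¹ := by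
    unfold lam
    have := (sum_pos_aux hq0 h1).ne'
    field_simp
    norm_num
  rw [h9, ofReal_inv, div_inv_eq_mul, ← h7]
  ring

/-- Data of the dual measure. -/
theorem exists_dual (hs : ∀ i, ‖s i‖ = 1) (inj : Function.Injective s) (hq0 : ∀ i, 0 < q i)
    (hq : ∑ i, q i = 1) [Nonempty ι] :
    ∃ w : Fin (Fintype.card ι) → ℂ, (∀ j, ‖w j‖ = 1) ∧ Function.Injective w ∧
      N s q = ∏ j, lin (w j) ∧ (∀ j, ∀ i, 1 - w j * conj (s i) ≠ 0) ∧
      (∑ j, lam s q (w j) = 1) ∧
      P s - N s q = ∑ j, C (2 * lam s q (w j) * conj (w j)) * X *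
        ∏ k ∈ univ.erase j, lin (w k) := by
  classical
  have hN0 := N_zero s q hq
  have hκ : ∏ i, -conj (s i) ≠ 0 := Finset.prod_ne_zero_iff.2 fun i _ => by
    rw [neg_ne_zero, _root_.map_ne_zero, ← norm_ne_zero_iff, hs i]
    exact one_ne_zero
  have hNc := N_coeff s q hq
  have hdeg : (N s q).natDegree = Fintype.card ι := by
    refine le_antisymm (N_natDegree_le s q) (le_natDegree_of_ne_zero ?_)
    rw [hNc]
    exact neg_ne_zero.2 hκ
  obtain ⟨w', hw0', hw'⟩ := exists_factor (N s q) hN0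
  set m := Fintype.card ι with hm
  let w : Fin m → ℂ := fun j => w' (Fin.cast hdeg.symm j)
  have hw0 : ∀ j, w j ≠ 0 := fun j => hw0' _
  have hw : N s q = ∏ j, lin (w j) := by
    rw [hw']
    exact Fintype.prod_equiv (finCongr hdeg) _ _ fun i => rfl
  have hsplit : ∀ j, N s q = lin (w j) * ∏ k ∈ univ.erase j, lin (w k) := fun j => by
    rw [hw]; exact (Finset.mul_prod_erase univ _ (mem_univ j)).symm
  -- all roots lie on the circle
  have hroot0 : ∀ j, (N s q).eval (conj (w j))⁻¹ = 0 := fun j => by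
    rw [hsplit j, eval_mul, eval_lin, inv_mul_cancel₀ ((_root_.map_ne_zero _).2 (hw0 j)), sub_self,
      zero_mul]
  have hwn : ∀ j, ‖w j‖ = 1 := fun j => by
    have := (N_root hs inj hq0 (hroot0 j)).1
    rw [norm_inv, RCLike.norm_conj, inv_eq_one] at this
    exact this
  have hinv : ∀ j, (conj (w j))⁻¹ = w j := fun j =>
    inv_eq_of_mul_eq_one_left (mul_conj_self (hwn j))
  have hroot : ∀ j, (N s q).eval (w j) = 0 := fun j => by
    have := hroot0 j
    rwa [hinv] at this
  have hsep : ∀ j, ∀ i, 1 - w j * conj (s i) ≠ 0 := fun j => (N_root hs inj hq0 (hroot j)).2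
  -- the value of the complementary product
  have hR : ∀ j, (∏ k ∈ univ.erase j, lin (w k)).eval (w j) =
      (P s).eval (w j) / (2 * lam s q (w j) : ℝ) := by
    intro j
    rw [← N_deriv_root hs inj hq0 (hroot j)]
    conv_rhs => rw [hsplit j]
    rw [derivative_mul, derivative_lin, eval_add, eval_mul, eval_mul, eval_neg, eval_C, eval_lin,
      mul_conj_self (hwn j), sub_self, zero_mul, add_zero]
    linear_combination (-(eval (w j) (∏ k ∈ univ.erase j, lin (w k)))) * mul_conj_self (hwn j)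
  have hlam : ∀ j, 0 < lam s q (w j) := fun j => lam_pos hq0 (hsep j)
  have hlamC : ∀ j, ((lam s q (w j) : ℝ) : ℂ) ≠ 0 := fun j => by exact_mod_cast (hlam j).ne'
  have hR0 : ∀ j, (∏ k ∈ univ.erase j, lin (w k)).eval (w j) ≠ 0 := fun j => by
    rw [hR]
    refine div_ne_zero (P_ne (hsep j)) ?_
    exact_mod_cast (mul_pos two_pos (hlam j)).ne'
  have hinj : Function.Injective w := by
    intro j k hjk
    by_contra hne
    apply hR0 j
    rw [eval_prod]
    refine Finset.prod_eq_zero (i := k) (Finset.mem_erase.2 ⟨Ne.symm hne, mem_univ _⟩) ?_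
    rw [eval_lin, ← hjk, mul_conj_self (hwn j), sub_self]
  -- partial fractions
  have hpf : P s - N s q = ∑ j, C (2 * lam s q (w j) * conj (w j)) * X *
        ∏ k ∈ univ.erase j, lin (w k) := by
    rw [← sub_eq_zero]
    refine eq_zero_of_natDegree_lt_card_of_eval_eq_zero' _ (insert 0 (univ.image w)) ?_ ?_
    · intro z hz
      rcases Finset.mem_insert.1 hz with rfl | hz
      · rw [eval_sub, eval_sub, P_zero, hN0, sub_self, zero_sub, neg_eq_zero, eval_finsetSum]
        refine Finset.sum_eq_zero fun j _ => ?_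
        rw [eval_mul, eval_mul, eval_X, mul_zero, zero_mul]
      · obtain ⟨k, -, rfl⟩ := Finset.mem_image.1 hz
        rw [eval_sub, eval_sub, hroot, sub_zero, eval_finsetSum, Finset.sum_eq_single k, eval_mul,
          eval_mul, eval_X, eval_C, hR, ofReal_mul, ofReal_ofNat]
        · have h1 := hlamC k
          have h2 := mul_conj_self (hwn k)
          field_simp
          linear_combination (-(eval (w k) (P s))) * h2
        · intro j _ hj
          rw [eval_mul, eval_prod]
          refine mul_eq_zero_of_right _ (Finset.prod_eq_zero (i := k)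
            (Finset.mem_erase.2 ⟨hj.symm, mem_univ _⟩) ?_)
          rw [eval_lin, mul_conj_self (hwn k), sub_self]
        · intro h; exact absurd (mem_univ _) h
    · have hcard : (insert (0 : ℂ) (univ.image w)).card = m + 1 := by
        rw [Finset.card_insert_of_notMem, Finset.card_image_of_injective _ hinj, Finset.card_fin]
        intro h
        obtain ⟨k, -, hk⟩ := Finset.mem_image.1 h
        exact hw0 k hk
      rw [hcard, Nat.lt_succ_iff]
      refine (natDegree_sub_le _ _).trans (max_le ((natDegree_sub_le _ _).trans (max_le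
        (P_natDegree_le s) (N_natDegree_le s q))) ?_)
      refine natDegree_sum_le_of_forall_le _ _ fun j _ => ?_
      refine (natDegree_mul_le_of_le (m := 1) (n := (univ.erase j).card) ?_
        (natDegree_prod_lin_le _ _)).trans ?_
      · exact (natDegree_C_mul_le _ _).trans natDegree_X_le
      · rw [Finset.card_erase_of_mem (mem_univ j), Finset.card_univ, Fintype.card_fin]
        have : 0 < m := Fintype.card_pos
        omega
  refine ⟨w, hwn, hinj, hw, hsep, ?_, hpf⟩
  have hc := congrArg (fun p : ℂ[X] => p.coeff m) hpf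
  simp only [coeff_sub, finsetSum_coeff] at hc
  rw [P_coeff, hNc] at hc
  have hNw : (N s q).coeff m = ∏ j, -conj (w j) := by
    rw [hw]
    have := coeff_prod_lin (univ : Finset (Fin m)) w
    rwa [Finset.card_fin] at this
  have hterm : ∀ j, (C (2 * (lam s q (w j) : ℂ) * conj (w j)) * X *
      ∏ k ∈ univ.erase j, lin (w k)).coeff m = 2 * lam s q (w j) * ∏ i, -conj (s i) := by
    intro j
    have hc : m = 1 + (univ.erase j).card := by
      rw [Finset.card_erase_of_mem (mem_univ j), Finset.card_univ, Fintype.card_fin]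
      have : 0 < m := Fintype.card_pos
      omega
    suffices key : ∀ n, n = 1 + (univ.erase j).card →
        (C (2 * (lam s q (w j) : ℂ) * conj (w j)) * X *
          ∏ k ∈ univ.erase j, lin (w k)).coeff n = 2 * lam s q (w j) * ∏ i, -conj (s i) from
      key m hc
    rintro _ rfl
    rw [mul_assoc, coeff_C_mul, coeff_mul_add_eq_of_natDegree_le natDegree_X_le
      (natDegree_prod_lin_le _ _), coeff_prod_lin, coeff_X_one, one_mul]
    have h1 : ∏ j, -conj (w j) = -∏ i, -conj (s i) := by rw [← hNw, hNc]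
    rw [← Finset.mul_prod_erase univ (fun i => -conj (w i)) (mem_univ j)] at h1
    linear_combination (-(2 * (lam s q (w j) : ℂ))) * h1
  rw [Finset.sum_congr rfl fun j _ => hterm j, ← Finset.sum_mul, ← Finset.mul_sum] at hc
  have h2 : (2 : ℂ) * (∏ i, -conj (s i)) * (1 - ∑ j, (lam s q (w j) : ℂ)) = 0 := by
    linear_combination hc
  have h3 := (mul_eq_zero.1 h2).resolve_left (mul_ne_zero two_ne_zero hκ)
  have h4 : ((∑ j, lam s q (w j) : ℝ) : ℂ) = 1 := by
    rw [ofReal_sum]
    linear_combination -h3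
  exact_mod_cast h4

end Pool.Agent.Q194.Circ
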